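import Pool.Agent.N916.GB.LA

/-!
# DP, part 2: linearly independent tuples whose first two components are not orthogonal
-/

set_option autoImplicit false
set_option linter.all false

open scoped Classical

namespace Pool.Agent.N809.DP

open Finset
open Pool.Agent.N916.GB (mm mm_pos In bon_even bon_odd z2)

section
variable {W : Type} [AddCommGroup W] [Module (ZMod 2) W] [Finite W]

theorem span_card {k : ℕ} {s : Fin k → W} (hs : LinearIndependent (ZMod 2) s) :
    Nat.card (Submodule.span (ZMod 2) (Set.range s)) = 2 ^ k := by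
  rw [Module.natCard_eq_pow_finrank (K := ZMod 2), finrank_span_eq_card hs, Nat.card_zmod,
    Fintype.card_fin]

theorem compl_card {k : ℕ} {s : Fin k → W} (hs : LinearIndependent (ZMod 2) s) :
    (Nat.card ((Submodule.span (ZMod 2) (Set.range s) : Set W)ᶜ : Set W) : ℝ) =
      2 ^ Module.finrank (ZMod 2) W - 2 ^ k := by
  have h1 := Set.ncard_add_ncard_compl (Submodule.span (ZMod 2) (Set.range s) : Set W)
  have h2 : (Submodule.span (ZMod 2) (Set.range s) : Set W).ncard = 2 ^ k := span_card hs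
  have h3 : Nat.card W = 2 ^ Module.finrank (ZMod 2) W := by
    rw [Module.natCard_eq_pow_finrank (K := ZMod 2), Nat.card_zmod]
  rw [h2, h3] at h1
  have h4 : Nat.card ((Submodule.span (ZMod 2) (Set.range s) : Set W)ᶜ : Set W) =
      ((Submodule.span (ZMod 2) (Set.range s) : Set W)ᶜ).ncard := rfl
  have h5 : ((2 ^ k + ((Submodule.span (ZMod 2) (Set.range s) : Set W)ᶜ).ncard : ℕ) : ℝ) =
      ((2 ^ Module.finrank (ZMod 2) W : ℕ) : ℝ) := by
    rw [h1]
  push_cast at h5
  rw [h4]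
  linarith

theorem sig_ext {A : Type} {B : A → Set W} : ∀ (x y : Σ a, B a), x.1 = y.1 →
    (x.2 : W) = y.2 → x = y := by
  rintro ⟨a, b, hb⟩ ⟨a', b', hb'⟩ h1 h2
  have h1' : a = a' := h1
  subst h1'
  have h2' : b = b' := h2
  subst h2'
  rfl

/-- one more component -/
theorem ext_card {k : ℕ} (Q : (Fin k → W) → Prop) :
    (Nat.card {s : Fin (k + 1) → W // LinearIndependent (ZMod 2) s ∧ Q (Fin.init s)} : ℝ) =
      Nat.card {s : Fin k → W // LinearIndependent (ZMod 2) s ∧ Q s} *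
        (2 ^ Module.finrank (ZMod 2) W - 2 ^ k) := by
  let e : {s : Fin (k + 1) → W // LinearIndependent (ZMod 2) s ∧ Q (Fin.init s)} ≃
      Σ s : {s : Fin k → W // LinearIndependent (ZMod 2) s ∧ Q s},
        ((Submodule.span (ZMod 2) (Set.range (s : Fin k → W)) : Set W)ᶜ : Set W) :=
    { toFun := fun s => ⟨⟨Fin.init s.1, (linearIndependent_finSucc'.1 s.2.1).1, s.2.2⟩,
        ⟨s.1 (Fin.last k), (linearIndependent_finSucc'.1 s.2.1).2⟩⟩
      invFun := fun s => ⟨Fin.snoc s.1.1 s.2.1, by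
        refine ⟨linearIndependent_finSucc'.2 ?_, ?_⟩
        · rw [Fin.init_snoc, Fin.snoc_last]
          exact ⟨s.1.2.1, s.2.2⟩
        · rw [Fin.init_snoc]
          exact s.1.2.2⟩
      left_inv := fun s => Subtype.ext (Fin.snoc_init_self _)
      right_inv := by
        intro x
        have h0 : (Fin.init (Fin.snoc x.1.1 (x.2 : W) : Fin (k + 1) → W) : Fin k → W) = x.1.1 :=
          Fin.init_snoc (α := fun _ => W) _ _
        refine sig_ext _ _ (Subtype.ext h0) ?_
        show (Fin.snoc x.1.1 (x.2 : W) : Fin (k + 1) → W) (Fin.last k) = x.2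
        exact Fin.snoc_last (α := fun _ => W) _ _ }
  haveI : Fintype {s : Fin k → W // LinearIndependent (ZMod 2) s ∧ Q s} := Fintype.ofFinite _
  rw [Nat.card_congr e, Nat.card_sigma]
  push_cast
  rw [sum_congr rfl fun s _ => compl_card s.2.1, sum_const, nsmul_eq_mul, card_univ,
    Nat.card_eq_fintype_card]

/-- the number of tuples -/
noncomputable def cF (F : W → W → ZMod 2) (j : ℕ) : ℝ :=
  (Nat.card {s : Fin (j + 2) → W // LinearIndependent (ZMod 2) s ∧ F (s 0) (s 1) = 1} : ℝ)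

theorem cF_succ (F : W → W → ZMod 2) (j : ℕ) :
    cF F (j + 1) = cF F j * (2 ^ Module.finrank (ZMod 2) W - 2 ^ (j + 2)) :=
  ext_card (k := j + 2) fun s => F (s 0) (s 1) = 1

theorem cF_prod (F : W → W → ZMod 2) (hd : 2 ≤ Module.finrank (ZMod 2) W) (j : ℕ) :
    cF F j = cF F 0 * (4 ^ j * In j (Module.finrank (ZMod 2) W - 2)) := by
  induction j with
  | zero =>
    unfold In
    rw [pow_zero, prod_range_zero, mul_one, mul_one]
  | succ j ih =>
    rw [cF_succ, ih]
    unfold In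
    rw [prod_range_succ]
    obtain ⟨n, hn⟩ := Nat.exists_eq_add_of_le hd
    rw [hn, Nat.add_sub_cancel_left]
    ring

theorem cF_nonneg (F : W → W → ZMod 2) (j : ℕ) : 0 ≤ cF F j := Nat.cast_nonneg _

/-- pairs with `F = 1` are independent -/
theorem li_pair {F : W → W → ZMod 2} (hF : ∀ a b c, F a (b + c) = F a b + F a c)
    (hFs : ∀ a b, F a b = F b a) (hFa : ∀ a, F a a = 0) {s : Fin 2 → W} (h : F (s 0) (s 1) = 1) :
    LinearIndependent (ZMod 2) s := by
  have h0 : ∀ a, F a 0 = 0 := by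
    intro a
    have := hF a 0 0
    rw [add_zero] at this
    exact left_eq_add.1 this
  rw [linearIndependent_fin2]
  refine ⟨fun h1 => ?_, fun a h1 => ?_⟩
  · rw [h1, h0] at h
    exact absurd h (by decide)
  · rw [← h1, hFs] at h
    rcases z2 a with ha | ha
    · rw [ha, zero_smul, h0] at h
      exact absurd h (by decide)
    · rw [ha, one_smul, hFa] at h
      exact absurd h (by decide)

theorem cF_zero {F : W → W → ZMod 2} (hF : ∀ a b c, F a (b + c) = F a b + F a c)
    (hFs : ∀ a b, F a b = F b a) (hFa : ∀ a, F a a = 0) :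
    cF F 0 = (Nat.card {p : W × W // F p.1 p.2 = 1} : ℝ) := by
  unfold cF
  norm_cast
  exact Nat.card_congr
    { toFun := fun s => ⟨(s.1 0, s.1 1), s.2.2⟩
      invFun := fun p => ⟨![p.1.1, p.1.2], li_pair hF hFs hFa p.2, p.2⟩
      left_inv := fun s => Subtype.ext (by
        funext i
        fin_cases i <;> rfl)
      right_inv := fun p => rfl }

/-- the coordinates in dimension two -/
theorem two_bij {F : W → W → ZMod 2} (hF : ∀ a b c, F a (b + c) = F a b + F a c)
    (hFs : ∀ a b, F a b = F b a) (hFa : ∀ a, F a a = 0) (hd : Module.finrank (ZMod 2) W = 2)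
    {a b : W} (hab : F a b = 1) :
    Function.Bijective (fun p : ZMod 2 × ZMod 2 => p.1 • a + p.2 • b) ∧
      ∀ p q : ZMod 2 × ZMod 2, F (p.1 • a + p.2 • b) (q.1 • a + q.2 • b) =
        p.1 * q.2 + p.2 * q.1 := by
  have hF' : ∀ a b c, F (a + b) c = F a c + F b c := by
    intro a b c
    rw [hFs, hF, hFs c a, hFs c b]
  have h0 : ∀ a, F a 0 = 0 := by
    intro a
    have := hF a 0 0
    rw [add_zero] at this
    exact left_eq_add.1 this
  have hsm : ∀ (t : ZMod 2) x y, F x (t • y) = t * F x y := by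
    intro t x y
    rcases z2 t with ht | ht
    · rw [ht, zero_smul, h0, zero_mul]
    · rw [ht, one_smul, one_mul]
  have hsm' : ∀ (t : ZMod 2) x y, F (t • x) y = t * F x y := by
    intro t x y
    rw [hFs, hsm, hFs]
  refine ⟨?_, fun p q => by
    rw [hF, hF', hF', hsm, hsm, hsm, hsm, hsm', hsm', hsm', hsm', hFa, hFa, hFs b a, hab]
    ring⟩
  have hinj : Function.Injective (fun p : ZMod 2 × ZMod 2 => p.1 • a + p.2 • b) := by
    intro p q h
    have h' : p.1 • a + p.2 • b = q.1 • a + q.2 • b := h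
    have h1 : F (p.1 • a + p.2 • b) b = F (q.1 • a + q.2 • b) b := by rw [h']
    have h2 : F (p.1 • a + p.2 • b) a = F (q.1 • a + q.2 • b) a := by rw [h']
    have e1 : ∀ p : ZMod 2 × ZMod 2, F (p.1 • a + p.2 • b) b = p.1 := by
      intro p
      rw [hF', hsm', hsm', hab, hFa, mul_zero, mul_one, add_zero]
    have e2 : ∀ p : ZMod 2 × ZMod 2, F (p.1 • a + p.2 • b) a = p.2 := by
      intro p
      rw [hF', hsm', hsm', hFs b a, hab, hFa, mul_zero, mul_one, zero_add]
    rw [e1, e1] at h1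
    rw [e2, e2] at h2
    exact Prod.ext h1 h2
  have hcard : Nat.card W = 4 := by
    rw [Module.natCard_eq_pow_finrank (K := ZMod 2), hd, Nat.card_zmod]
    norm_num
  haveI : Fintype W := Fintype.ofFinite W
  rw [Fintype.bijective_iff_injective_and_card]
  refine ⟨hinj, ?_⟩
  rw [← Nat.card_eq_fintype_card, ← Nat.card_eq_fintype_card, hcard]
  simp

theorem two_span {F : W → W → ZMod 2} (hF : ∀ a b c, F a (b + c) = F a b + F a c)
    (hFs : ∀ a b, F a b = F b a) (hFa : ∀ a, F a a = 0) (hd : Module.finrank (ZMod 2) W = 2)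
    {a b : W} (hab : F a b = 1) (z : W) : ∃ α β : ZMod 2, z = α • a + β • b := by
  obtain ⟨p, hp⟩ := (two_bij hF hFs hFa hd hab).1.2 z
  exact ⟨p.1, p.2, hp.symm⟩

/-- **in dimension two there are six pairs** -/
theorem cF_two {F : W → W → ZMod 2} (hF : ∀ a b c, F a (b + c) = F a b + F a c)
    (hFs : ∀ a b, F a b = F b a) (hFa : ∀ a, F a a = 0) (hd : Module.finrank (ZMod 2) W = 2) :
    cF F 0 = if (∃ a b, F a b = 1) then 6 else 0 := by
  rw [cF_zero hF hFs hFa]
  split_ifs with h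
  · obtain ⟨a, b, hab⟩ := h
    obtain ⟨hbij, hφ⟩ := two_bij hF hFs hFa hd hab
    have e : {p : W × W // F p.1 p.2 = 1} ≃
        {p : (ZMod 2 × ZMod 2) × (ZMod 2 × ZMod 2) // p.1.1 * p.2.2 + p.1.2 * p.2.1 = 1} := by
      refine (Equiv.subtypeEquiv (Equiv.prodCongr (Equiv.ofBijective _ hbij)
        (Equiv.ofBijective _ hbij)) ?_).symm
      intro p
      have := hφ p.1 p.2
      show _ ↔ F (p.1.1 • a + p.1.2 • b) (p.2.1 • a + p.2.2 • b) = 1
      rw [this]
    rw [Nat.card_congr e, Nat.card_eq_fintype_card]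
    have : Fintype.card {p : (ZMod 2 × ZMod 2) × (ZMod 2 × ZMod 2) //
        p.1.1 * p.2.2 + p.1.2 * p.2.1 = 1} = 6 := by
      rw [Fintype.card_subtype]
      decide
    rw [this]
    norm_num
  · have : IsEmpty {p : W × W // F p.1 p.2 = 1} := ⟨fun p => h ⟨p.1.1, p.1.2, p.2⟩⟩
    rw [Nat.card_of_isEmpty, Nat.cast_zero]

/-- the good event -/
def Good (F : W → W → ZMod 2) : Prop := Module.finrank (ZMod 2) W = 2 ∧ ∃ a b, F a b = 1

/-- the partial sums -/
noncomputable def bS (F : W → W → ZMod 2) (n : ℕ) : ℝ :=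
  ∑ j ∈ range n, (-1) ^ j * (cF F j / 4 ^ j) / mm j

theorem bS_eq (F : W → W → ZMod 2) (hd : 2 ≤ Module.finrank (ZMod 2) W) (n : ℕ) :
    bS F n = cF F 0 * ∑ j ∈ range n, (-1) ^ j * In j (Module.finrank (ZMod 2) W - 2) / mm j := by
  unfold bS
  rw [mul_sum]
  refine sum_congr rfl fun j _ => ?_
  rw [cF_prod F hd j]
  have : (4 : ℝ) ^ j ≠ 0 := by positivity
  field_simp

theorem good_val {F : W → W → ZMod 2} (hF : ∀ a b c, F a (b + c) = F a b + F a c)
    (hFs : ∀ a b, F a b = F b a) (hFa : ∀ a, F a a = 0) (hd : 2 ≤ Module.finrank (ZMod 2) W) :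
    (if Good F then (6 : ℝ) else 0) =
      cF F 0 * (if Module.finrank (ZMod 2) W - 2 = 0 then (1 : ℝ) else 0) := by
  by_cases h : Module.finrank (ZMod 2) W = 2
  · rw [cF_two hF hFs hFa h, if_pos (show Module.finrank (ZMod 2) W - 2 = 0 by omega), mul_one]
    by_cases h1 : ∃ a b, F a b = 1
    · rw [if_pos h1, if_pos ⟨h, h1⟩]
    · rw [if_neg h1, if_neg fun h2 => h1 h2.2]
  · rw [if_neg fun h2 => h h2.1, if_neg (show ¬ Module.finrank (ZMod 2) W - 2 = 0 by omega),
      mul_zero]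

theorem good_le {F : W → W → ZMod 2} (hF : ∀ a b c, F a (b + c) = F a b + F a c)
    (hFs : ∀ a b, F a b = F b a) (hFa : ∀ a, F a a = 0) (hd : 2 ≤ Module.finrank (ZMod 2) W)
    {K : ℕ} (hK : Even K) : (if Good F then (6 : ℝ) else 0) ≤ bS F (K + 1) := by
  rw [good_val hF hFs hFa hd, bS_eq F hd]
  exact mul_le_mul_of_nonneg_left (bon_even hK _) (cF_nonneg F 0)

theorem le_good {F : W → W → ZMod 2} (hF : ∀ a b c, F a (b + c) = F a b + F a c)
    (hFs : ∀ a b, F a b = F b a) (hFa : ∀ a, F a a = 0) (hd : 2 ≤ Module.finrank (ZMod 2) W)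
    {K : ℕ} (hK : Odd K) : bS F (K + 1) ≤ (if Good F then (6 : ℝ) else 0) := by
  rw [good_val hF hFs hFa hd, bS_eq F hd]
  exact mul_le_mul_of_nonneg_left (bon_odd hK _) (cF_nonneg F 0)

end

end Pool.Agent.N809.DP
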