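import Pool.Agent.N809.DP.Cnt
import Pool.Agent.N916.PQ.LB1

/-!
# DP, part 3: the transposed system and the good event
-/

set_option autoImplicit false
set_option linter.all false

open scoped Classical

namespace Pool.Agent.N809.DP

open Finset
open Pool.Agent.N916.GB (ps sx ch ch_zero ch_add orth z2 z2_add_self z2_eq_of_add)
open Pool.Agent.N916.PQ (ev lp IsS Gc Hy Kr mem_Kr Gc_iff isS_Y isS_add isS_smul ev_add ev_zero
  ev_smul lp_add lp_zero lp_smul)

section
variable {R C J : Type} [Fintype R] [Fintype C] [Fintype J] [LinearOrder J]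
variable {M : R ⊕ J → C ⊕ J → ZMod 2} {X : R ⊕ J → ZMod 2} {Y : C ⊕ J → ZMod 2} {u : J → ZMod 2}

/-- the transposed matrix -/
def tM (M : R ⊕ J → C ⊕ J → ZMod 2) (c : C ⊕ J) (r : R ⊕ J) : ZMod 2 := M r c

theorem Hy_t (H : Hy M X Y u) : Hy (tM M) Y X u where
  x1 := H.y1
  y1 := H.x1
  kx := fun r => by
    rw [← H.ky r]
    exact sum_congr rfl fun c _ => mul_comm _ _
  ky := fun c => by
    rw [← H.kx c]
    exact sum_congr rfl fun r _ => mul_comm _ _
  nr := fun b hb => H.nc b fun l => by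
    rw [← hb l]
    exact sum_congr rfl fun r _ => mul_comm _ _
  nc := fun b hb => H.nr b fun l => by
    rw [← hb l]
    exact sum_congr rfl fun r _ => mul_comm _ _
  tw := fun k l h => by
    rw [← H.tw k l h]
    exact add_comm _ _

/-- the matrix with the Laplacian -/
def fA (M : R ⊕ J → C ⊕ J → ZMod 2) (δ : J → J → ZMod 2) (r : R ⊕ J) (c : C ⊕ J) : ZMod 2 :=
  M r c + Sum.elim (fun _ => 0) (fun l => Sum.elim (fun _ => 0)
    (fun n => δ l n + if l = n then ∑ m, δ l m else 0) c) r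

theorem fA_ev (M : R ⊕ J → C ⊕ J → ZMod 2) (δ : J → J → ZMod 2) (x : C ⊕ J → ZMod 2) :
    (∀ r, ∑ c, fA M δ r c * x c = 0) ↔ IsS M δ x := by
  have h1 : ∀ v, ∑ c, fA M δ (Sum.inl v) c * x c = ev M x (Sum.inl v) := by
    intro v
    unfold fA ev
    simp only [Sum.elim_inl, add_zero]
  have h2 : ∀ l, ∑ c, fA M δ (Sum.inr l) c * x c = ev M x (Sum.inr l) + lp δ x l := by
    intro l
    unfold fA ev Pool.Agent.N916.PQ.lp
    simp only [Sum.elim_inr, add_mul, sum_add_distrib]
    congr 1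
    rw [Fintype.sum_sum_type]
    simp only [Sum.elim_inl, Sum.elim_inr, zero_mul, sum_const_zero, zero_add, add_mul,
      sum_add_distrib, ite_mul]
    rw [sum_ite_eq univ l, if_pos (mem_univ _), sum_mul]
    congr 1
    · exact sum_congr rfl fun m _ => mul_comm _ _
    · exact sum_congr rfl fun m _ => mul_comm _ _
  unfold IsS
  constructor
  · intro h
    exact ⟨fun v => by rw [← h1]; exact h _, fun l => by rw [← h2]; exact h _⟩
  · rintro ⟨h3, h4⟩ (v | l)
    · rw [h1]
      exact h3 v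
    · rw [h2]
      exact h4 l

theorem fA_t {δ : J → J → ZMod 2} (hδ : ∀ l m, δ l m = δ m l) (r : R ⊕ J) (c : C ⊕ J) :
    fA (tM M) δ c r = fA M δ r c := by
  unfold fA tM
  congr 1
  rcases r with v | l
  · rcases c with w | n
    · rfl
    · rfl
  · rcases c with w | n
    · rfl
    · simp only [Sum.elim_inr]
      rw [hδ n l]
      congr 1
      by_cases h : l = n
      · rw [if_pos h, if_pos h.symm, h]
      · rw [if_neg h, if_neg (Ne.symm h)]

/-- both kernels of a matrix -/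
theorem two_ker {P Q : Type} [Fintype P] [Fintype Q] (A : P → Q → ZMod 2) :
    (Nat.card {x : Q → ZMod 2 // ∀ p, ∑ q, A p q * x q = 0} : ℝ) * 2 ^ Fintype.card P =
      (Nat.card {y : P → ZMod 2 // ∀ q, ∑ p, A p q * y p = 0} : ℝ) * 2 ^ Fintype.card Q := by
  have h1 : (Nat.card {x : Q → ZMod 2 // ∀ p, ∑ q, A p q * x q = 0} : ℝ) * 2 ^ Fintype.card P =
      ∑ x : Q → ZMod 2, ∑ y : P → ZMod 2, ch (∑ p, y p * ∑ q, A p q * x q) := by
    rw [Nat.card_eq_fintype_card, Fintype.card_subtype, card_filter, Nat.cast_sum, sum_mul]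
    refine sum_congr rfl fun x _ => ?_
    rw [orth]
    split_ifs
    · rw [Nat.cast_one, one_mul]
    · rw [Nat.cast_zero, zero_mul]
  have h2 : (Nat.card {y : P → ZMod 2 // ∀ q, ∑ p, A p q * y p = 0} : ℝ) * 2 ^ Fintype.card Q =
      ∑ y : P → ZMod 2, ∑ x : Q → ZMod 2, ch (∑ q, x q * ∑ p, A p q * y p) := by
    rw [Nat.card_eq_fintype_card, Fintype.card_subtype, card_filter, Nat.cast_sum, sum_mul]
    refine sum_congr rfl fun x _ => ?_
    rw [orth]
    split_ifs
    · rw [Nat.cast_one, one_mul]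
    · rw [Nat.cast_zero, zero_mul]
  rw [h1, h2, sum_comm]
  refine sum_congr rfl fun y _ => sum_congr rfl fun x _ => congrArg ch ?_
  simp only [mul_sum]
  rw [sum_comm]
  exact sum_congr rfl fun q _ => sum_congr rfl fun p _ => by ring

/-- solutions and normalised solutions -/
theorem Sol_Kr (H : Hy M X Y u) (k0 : J) (δ : J → J → ZMod 2) :
    Nat.card {x : C ⊕ J → ZMod 2 // IsS M δ x} = 2 * Nat.card (Kr M k0 δ) := by
  have e : {x : C ⊕ J → ZMod 2 // IsS M δ x} ≃ ZMod 2 × Kr M k0 δ :=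
    { toFun := fun x => (x.1 (Sum.inr k0), ⟨x.1 + x.1 (Sum.inr k0) • Y, by
        rw [mem_Kr]
        refine ⟨?_, isS_add x.2 (isS_smul _ (isS_Y H δ))⟩
        rw [Pi.add_apply, Pi.smul_apply, H.y1, smul_eq_mul, mul_one, z2_add_self]⟩)
      invFun := fun p => ⟨p.2.1 + p.1 • Y, isS_add (mem_Kr.1 p.2.2).2 (isS_smul _ (isS_Y H δ))⟩
      left_inv := fun x => Subtype.ext (by
        funext q
        simp only [Pi.add_apply, Pi.smul_apply, smul_eq_mul]
        rw [add_assoc, z2_add_self, add_zero])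
      right_inv := fun p => by
        obtain ⟨t, z, hz⟩ := p
        have h1 := (mem_Kr.1 hz).1
        refine Prod.ext ?_ (Subtype.ext ?_)
        · simp only [Pi.add_apply, Pi.smul_apply, smul_eq_mul]
          rw [h1, H.y1, mul_one, zero_add]
        · funext q
          simp only [Pi.add_apply, Pi.smul_apply, smul_eq_mul]
          rw [h1, H.y1, mul_one, zero_add, add_assoc, z2_add_self, add_zero] }
  rw [Nat.card_congr e, Nat.card_prod, Nat.card_zmod]

/-- **the dimensions of the two kernels** -/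
theorem fr_t (H : Hy M X Y u) (k0 : J) {δ : J → J → ZMod 2} (hδ : ∀ l m, δ l m = δ m l) :
    Module.finrank (ZMod 2) (Kr M k0 δ) + Fintype.card R =
      Module.finrank (ZMod 2) (Kr (tM M) k0 δ) + Fintype.card C := by
  have h1 := two_ker (fA M δ)
  have e1 : Nat.card {x : C ⊕ J → ZMod 2 // ∀ r, ∑ c, fA M δ r c * x c = 0} =
      Nat.card {x : C ⊕ J → ZMod 2 // IsS M δ x} :=
    Nat.card_congr (Equiv.subtypeEquivRight fun x => fA_ev M δ x)
  have e2 : Nat.card {y : R ⊕ J → ZMod 2 // ∀ c, ∑ r, fA M δ r c * y r = 0} =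
      Nat.card {y : R ⊕ J → ZMod 2 // IsS (tM M) δ y} := by
    refine Nat.card_congr (Equiv.subtypeEquivRight fun x => ?_)
    rw [← fA_ev]
    refine forall_congr' fun c => ?_
    rw [sum_congr rfl fun r _ => by rw [← fA_t hδ]]
  have c1 : Nat.card (Kr M k0 δ) = 2 ^ Module.finrank (ZMod 2) (Kr M k0 δ) := by
    rw [Module.natCard_eq_pow_finrank (K := ZMod 2), Nat.card_zmod]
  have c2 : Nat.card (Kr (tM M) k0 δ) = 2 ^ Module.finrank (ZMod 2) (Kr (tM M) k0 δ) := by
    rw [Module.natCard_eq_pow_finrank (K := ZMod 2), Nat.card_zmod]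
  rw [e1, e2, Sol_Kr H k0 δ, Sol_Kr (Hy_t H) k0 δ, c1, c2, Fintype.card_sum, Fintype.card_sum] at h1
  have h2 : (2 * 2 ^ Module.finrank (ZMod 2) (Kr M k0 δ)) * 2 ^ (Fintype.card R + Fintype.card J) =
      (2 * 2 ^ Module.finrank (ZMod 2) (Kr (tM M) k0 δ)) *
        2 ^ (Fintype.card C + Fintype.card J) := by exact_mod_cast h1
  have h3 : 2 ^ (1 + Module.finrank (ZMod 2) (Kr M k0 δ) + (Fintype.card R + Fintype.card J)) =
      2 ^ (1 + Module.finrank (ZMod 2) (Kr (tM M) k0 δ) + (Fintype.card C + Fintype.card J)) := by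
    rw [pow_add 2 (1 + Module.finrank (ZMod 2) (Kr M k0 δ)),
      pow_add 2 (1 + Module.finrank (ZMod 2) (Kr (tM M) k0 δ)), pow_add 2 1, pow_add 2 1, pow_one]
    exact h2
  have h4 := Nat.pow_right_injective le_rfl h3
  omega

/-- **the criterion for the good event** -/
theorem good_iff (H : Hy M X Y u) (k0 : J) (hD : Fintype.card C = Fintype.card R + 2)
    {δ : J → J → ZMod 2} (hδ : ∀ l m, δ l m = δ m l)
    {FF : (C ⊕ J → ZMod 2) → (C ⊕ J → ZMod 2) → ZMod 2}
    (hF : ∀ a b c, FF a (b + c) = FF a b + FF a c) (hFs : ∀ a b, FF a b = FF b a)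
    (hFa : ∀ a, FF a a = 0) (hY : ∀ b, IsS M δ b → FF Y b = 0) :
    (Gc (tM M) X δ ∧ ∀ x, IsS M δ x → (∀ x', IsS M δ x' → FF x x' = 0) →
      ∃ β : ZMod 2, ∀ c, x c = β * Y c) ↔
      Good fun a b : Kr M k0 δ => FF (a : C ⊕ J → ZMod 2) b := by
  have hfr := fr_t H k0 hδ
  have hG : Gc (tM M) X δ ↔ Module.finrank (ZMod 2) (Kr M k0 δ) = 2 := by
    rw [Gc_iff (Hy_t H) k0]
    omega
  have hFs0 : ∀ a, FF a 0 = 0 := by
    intro a
    have := hF a 0 0
    rw [add_zero] at this
    exact left_eq_add.1 this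
  have hsm : ∀ (t : ZMod 2) x y, FF x (t • y) = t * FF x y := by
    intro t x y
    rcases z2 t with ht | ht
    · rw [ht, zero_smul, hFs0, zero_mul]
    · rw [ht, one_smul, one_mul]
  have hF' : ∀ a b c, FF (a + b) c = FF a c + FF b c := by
    intro a b c
    rw [hFs, hF, hFs c a, hFs c b]
  have hsm' : ∀ (t : ZMod 2) x y, FF (t • x) y = t * FF x y := by
    intro t x y
    rw [hFs, hsm, hFs]
  unfold Good
  rw [hG]
  constructor
  · rintro ⟨h1, h2⟩
    refine ⟨h1, ?_⟩
    by_contra hcon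
    push Not at hcon
    have h3 : Kr M k0 δ = ⊥ := by
      rw [Submodule.eq_bot_iff]
      intro x hx
      have hx' := mem_Kr.1 hx
      obtain ⟨β, hβ⟩ := h2 x hx'.2 fun x' hS => by
        have h4 : (x' + x' (Sum.inr k0) • Y) ∈ Kr M k0 δ := by
          rw [mem_Kr]
          refine ⟨?_, isS_add hS (isS_smul _ (isS_Y H δ))⟩
          rw [Pi.add_apply, Pi.smul_apply, H.y1, smul_eq_mul, mul_one, z2_add_self]
        have h5 := hcon ⟨x, hx⟩ ⟨_, h4⟩
        have h6 : FF x (x' + x' (Sum.inr k0) • Y) = 0 := by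
          rcases z2 (FF x (x' + x' (Sum.inr k0) • Y)) with h | h
          · exact h
          · exact absurd h h5
        rw [hF, hsm, hFs x Y, hY x hx'.2, mul_zero, add_zero] at h6
        exact h6
      have h4 := hβ (Sum.inr k0)
      rw [hx'.1, H.y1, mul_one] at h4
      funext c
      rw [hβ c, ← h4, zero_mul]
      rfl
    rw [h3, finrank_bot] at h1
    exact absurd h1 (by norm_num)
  · rintro ⟨h1, a, b, hab⟩
    refine ⟨h1, fun x hx hr => ?_⟩
    have h4 : (x + x (Sum.inr k0) • Y) ∈ Kr M k0 δ := by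
      rw [mem_Kr]
      refine ⟨?_, isS_add hx (isS_smul _ (isS_Y H δ))⟩
      rw [Pi.add_apply, Pi.smul_apply, H.y1, smul_eq_mul, mul_one, z2_add_self]
    have h5 : ∀ c : Kr M k0 δ, FF (x + x (Sum.inr k0) • Y) c = 0 := by
      intro c
      have hc := (mem_Kr.1 c.2).2
      rw [hF', hsm', hr _ hc, hY _ hc, mul_zero, add_zero]
    obtain ⟨α, β, h6⟩ := two_span (F := fun a b : Kr M k0 δ => FF (a : C ⊕ J → ZMod 2) b)
      (fun a b c => hF _ _ _) (fun a b => hFs _ _) (fun a => hFa _) h1 hab ⟨_, h4⟩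
    have h7 : x + x (Sum.inr k0) • Y = α • (a : C ⊕ J → ZMod 2) + β • (b : C ⊕ J → ZMod 2) :=
      congrArg Subtype.val h6
    have h8 := h5 a
    have h9 := h5 b
    have hab' : FF (a : C ⊕ J → ZMod 2) b = 1 := hab
    rw [h7, hF', hsm', hsm', hFa, mul_zero, zero_add, hFs b a, hab', mul_one] at h8
    rw [h7, hF', hsm', hsm', hFa, mul_zero, add_zero, hab', mul_one] at h9
    rw [h8, h9, zero_smul, zero_smul, add_zero] at h7
    refine ⟨x (Sum.inr k0), fun c => ?_⟩
    have h10 := congrFun h7 c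
    rw [Pi.add_apply, Pi.smul_apply, smul_eq_mul] at h10
    exact z2_eq_of_add h10

end

end Pool.Agent.N809.DP
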