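import Pool.Agent.N916.GB.LA

/-!
# DP, part 1: moments with a second form (after `N916/GB/LA1` of helper916)
-/

set_option autoImplicit false
set_option linter.all false

open scoped Classical

namespace Pool.Agent.N809.DP

open Finset
open Pool.Agent.N916.GB (ps sx sx_mem sx_symm ch ch_zero ch_add ch_abs z2 orth orthZ Qf Qf_shift rad
  bad_card card_ps_fin z2_add_self)

section
variable {Z : Type} [AddCommGroup Z] [Module (ZMod 2) Z] [Fintype Z]

/-- the number of tuples with a condition on one component -/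
theorem comp_card {k : ℕ} {G : Z → Z → ZMod 2} (hG : ∀ a b c, G a (b + c) = G a b + G a c)
    (i1 : Fin k) (h : (Fin k → Z) → Z → ZMod 2)
    (hh : ∀ z b c, h (z + Pi.single i1 c) b = h z b) :
    ((univ.filter fun z : Fin k → Z => ∀ b, G b (z i1) + h z b = 0).card : ℝ) * Fintype.card Z ≤
      (Fintype.card Z : ℝ) ^ k * (rad G).card := by
  have h1 : ∀ c : Z, ((univ.filter fun z : Fin k → Z => ∀ b, G b (z i1) + h z b = 0).card : ℝ) =
      ∑ z : Fin k → Z, if (∀ b, G b (z i1 + c) + h z b = 0) then (1 : ℝ) else 0 := by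
    intro c
    rw [card_filter, Nat.cast_sum]
    rw [← Equiv.sum_comp (Equiv.addRight (Pi.single i1 c : Fin k → Z))]
    refine sum_congr rfl fun z _ => ?_
    rw [Equiv.coe_addRight, Nat.cast_ite, Nat.cast_one, Nat.cast_zero]
    simp only [hh, Pi.add_apply, Pi.single_eq_same]
  have h2 : ((univ.filter fun z : Fin k → Z => ∀ b, G b (z i1) + h z b = 0).card : ℝ) *
      Fintype.card Z =
      ∑ c : Z, ∑ z : Fin k → Z, if (∀ b, G b (z i1 + c) + h z b = 0) then (1 : ℝ) else 0 := by
    rw [sum_congr rfl fun c (_ : c ∈ (univ : Finset Z)) => (h1 c).symm, sum_const, card_univ,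
      nsmul_eq_mul, mul_comm]
  rw [h2, sum_comm]
  have h3 : ∀ z : Fin k → Z, (∑ c : Z, if (∀ b, G b (z i1 + c) + h z b = 0) then (1 : ℝ) else 0) ≤
      (rad G).card := by
    intro z
    rw [← sum_filter, sum_const, nsmul_eq_mul, mul_one]
    norm_cast
    rcases (univ.filter fun c : Z => ∀ b, G b (z i1 + c) + h z b = 0).eq_empty_or_nonempty with
      he | ⟨c0, hc0⟩
    · rw [he, card_empty]
      exact Nat.zero_le _
    · rw [mem_filter] at hc0
      refine card_le_card_of_injOn (fun c => c - c0) (fun c hc => ?_) fun a _ b _ hab =>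
        sub_left_injective hab
      rw [mem_coe, mem_filter] at hc
      rw [mem_coe]
      unfold rad
      rw [mem_filter]
      refine ⟨mem_univ _, fun b => ?_⟩
      have e1 := hc.2 b
      have e2 := hc0.2 b
      have e3 : G b (z i1 + c) = G b (z i1 + c0) + G b (c - c0) := by
        rw [← hG]
        congr 1
        abel
      have key : ∀ x y w : ZMod 2, x + w = 0 → y + w = 0 → ∀ v, x = y + v → v = 0 := by decide
      exact key _ _ _ e1 e2 _ e3
  refine (sum_le_sum fun z _ => h3 z).trans ?_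
  rw [sum_const, card_univ, nsmul_eq_mul, Fintype.card_fun, Fintype.card_fin, Nat.cast_pow]

/-- one sum with the second form -/
theorem QF_sum {B F : Z → Z → ZMod 2} (hB : ∀ a b c, B a (b + c) = B a b + B a c)
    (hs : ∀ a b, B a b = B b a) (hF : ∀ a b c, F a (b + c) = F a b + F a c)
    (hFs : ∀ a b, F a b = F b a) {k : ℕ} {i0 i1 : Fin k} (hi : i0 ≠ i1)
    (τ : ps (Fin k) → ZMod 2) :
    |∑ z : Fin k → Z, ch (Qf B τ z + F (z i0) (z i1))| * Fintype.card Z ≤
      (Fintype.card Z : ℝ) ^ k * ((rad F).card + (rad fun a b => B a b + F a b).card) := by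
  have hcard : (0 : ℝ) < Fintype.card Z := by
    have : 0 < Fintype.card Z := Fintype.card_pos
    exact_mod_cast this
  have hB' : ∀ a b c, B (a + b) c = B a c + B b c := by
    intro a b c
    rw [hs, hB, hs c a, hs c b]
  have hF' : ∀ a b c, F (a + b) c = F a c + F b c := by
    intro a b c
    rw [hFs, hF, hFs c a, hFs c b]
  have hB0 : ∀ a, B a 0 = 0 := by
    intro a
    have := hB a 0 0
    rw [add_zero] at this
    exact left_eq_add.1 this
  -- the shift
  have hsh : ∀ (z : Fin k → Z) (b : Z), Qf B τ (z + Pi.single i0 b) +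
      F ((z + (Pi.single i0 b : Fin k → Z)) i0) ((z + (Pi.single i0 b : Fin k → Z)) i1) =
      (Qf B τ z + F (z i0) (z i1)) + (B b (∑ j, sx τ i0 j • z j) + F b (z i1)) := by
    intro z b
    rw [Qf_shift hB hs, Pi.add_apply, Pi.add_apply, Pi.single_eq_same,
      Pi.single_eq_of_ne (Ne.symm hi), add_zero, hF']
    ring
  have h1 : (∑ z : Fin k → Z, ch (Qf B τ z + F (z i0) (z i1))) * Fintype.card Z =
      ∑ z : Fin k → Z, ch (Qf B τ z + F (z i0) (z i1)) *
        (if (∀ b, B b (∑ j, sx τ i0 j • z j) + F b (z i1) = 0) then (Fintype.card Z : ℝ) else 0) := by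
    have h2 : ∀ b : Z, ∑ z : Fin k → Z, ch (Qf B τ z + F (z i0) (z i1)) =
        ∑ z : Fin k → Z, ch (Qf B τ z + F (z i0) (z i1)) *
          ch (B b (∑ j, sx τ i0 j • z j) + F b (z i1)) := by
      intro b
      rw [← Equiv.sum_comp (Equiv.addRight (Pi.single i0 b : Fin k → Z))]
      refine sum_congr rfl fun z _ => ?_
      rw [Equiv.coe_addRight, hsh, ch_add]
    have h3 : (∑ z : Fin k → Z, ch (Qf B τ z + F (z i0) (z i1))) * Fintype.card Z =
        ∑ b : Z, ∑ z : Fin k → Z, ch (Qf B τ z + F (z i0) (z i1)) *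
          ch (B b (∑ j, sx τ i0 j • z j) + F b (z i1)) := by
      rw [sum_congr rfl fun b (_ : b ∈ (univ : Finset Z)) => (h2 b).symm, sum_const, card_univ,
        nsmul_eq_mul, mul_comm]
    rw [h3, sum_comm]
    refine sum_congr rfl fun z _ => ?_
    rw [← mul_sum, orthZ (fun b => B b (∑ j, sx τ i0 j • z j) + F b (z i1)) (fun a b => by
      rw [hB', hF']
      ring)]
  have h4 : |∑ z : Fin k → Z, ch (Qf B τ z + F (z i0) (z i1))| * Fintype.card Z ≤
      ((univ.filter fun z : Fin k → Z => ∀ b, B b (∑ j, sx τ i0 j • z j) + F b (z i1) = 0).card : ℝ) *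
        Fintype.card Z := by
    rw [← abs_of_pos hcard, ← abs_mul, abs_of_pos hcard, h1]
    refine (abs_sum_le_sum_abs _ _).trans ?_
    rw [card_filter, Nat.cast_sum, sum_mul]
    refine sum_le_sum fun z _ => ?_
    rw [abs_mul, ch_abs, one_mul]
    split_ifs
    · rw [abs_of_pos hcard, Nat.cast_one, one_mul]
    · rw [abs_zero, Nat.cast_zero, zero_mul]
  refine h4.trans ?_
  -- split off the component `i1`
  have hsplit : ∀ z : Fin k → Z, ∑ j, sx τ i0 j • z j = sx τ i0 i1 • z i1 +
      ∑ j ∈ univ.erase i1, sx τ i0 j • z j := fun z => (add_sum_erase univ _ (mem_univ i1)).symm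
  have hrest : ∀ (z : Fin k → Z) (c : Z), ∑ j ∈ univ.erase i1, sx τ i0 j •
      (z + (Pi.single i1 c : Fin k → Z)) j = ∑ j ∈ univ.erase i1, sx τ i0 j • z j := by
    intro z c
    refine sum_congr rfl fun j hj => ?_
    rw [Pi.add_apply, Pi.single_eq_of_ne (ne_of_mem_erase hj), add_zero]
  have hr0 : (0 : ℝ) ≤ (Fintype.card Z : ℝ) ^ k * (rad F).card := by positivity
  have hr1 : (0 : ℝ) ≤ (Fintype.card Z : ℝ) ^ k * (rad fun a b => B a b + F a b).card := by
    positivity
  rcases z2 (sx τ i0 i1) with ht | ht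
  · have h5 : (univ.filter fun z : Fin k → Z => ∀ b, B b (∑ j, sx τ i0 j • z j) + F b (z i1) = 0) =
        univ.filter fun z : Fin k → Z => ∀ b, F b (z i1) +
          B b (∑ j ∈ univ.erase i1, sx τ i0 j • z j) = 0 := by
      refine filter_congr fun z _ => forall_congr' fun b => ?_
      rw [hsplit, ht, zero_smul, zero_add, add_comm]
    rw [h5]
    have h6 := comp_card hF i1 (fun z b => B b (∑ j ∈ univ.erase i1, sx τ i0 j • z j))
      (fun z b c => by rw [hrest])
    rw [mul_add]
    linarith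
  · have h5 : (univ.filter fun z : Fin k → Z => ∀ b, B b (∑ j, sx τ i0 j • z j) + F b (z i1) = 0) =
        univ.filter fun z : Fin k → Z => ∀ b, (B b (z i1) + F b (z i1)) +
          B b (∑ j ∈ univ.erase i1, sx τ i0 j • z j) = 0 := by
      refine filter_congr fun z _ => forall_congr' fun b => ?_
      rw [hsplit, ht, one_smul, hB]
      have : B b (z i1) + B b (∑ j ∈ univ.erase i1, sx τ i0 j • z j) + F b (z i1) =
          B b (z i1) + F b (z i1) + B b (∑ j ∈ univ.erase i1, sx τ i0 j • z j) := by ring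
      rw [this]
    rw [h5]
    have h6 := comp_card (G := fun a b => B a b + F a b) (fun a b c => by rw [hB, hF]; ring) i1
      (fun z b => B b (∑ j ∈ univ.erase i1, sx τ i0 j • z j)) (fun z b c => by rw [hrest])
    rw [mul_add]
    linarith

/-- the moments with the second form -/
theorem momF {B F : Z → Z → ZMod 2} (hB : ∀ a b c, B a (b + c) = B a b + B a c)
    (hs : ∀ a b, B a b = B b a) (hF : ∀ a b c, F a (b + c) = F a b + F a c)
    (hFs : ∀ a b, F a b = F b a) {k : ℕ} {i0 i1 : Fin k} (hi : i0 ≠ i1)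
    (S : Finset Z) (G : Finset (Fin k → Z))
    (hG : ∀ z, z ∉ G → ∃ c : Fin k → ZMod 2, (∃ i, c i ≠ 0) ∧ ∑ i, c i • z i ∈ S) :
    |∑ τ : ps (Fin k) → ZMod 2, ∑ z ∈ G, ch (Qf B τ z + F (z i0) (z i1))| * Fintype.card Z ≤
      2 ^ k ^ 2 * ((Fintype.card Z : ℝ) ^ k *
        ((rad F).card + (rad fun a b => B a b + F a b).card + 2 ^ k * S.card)) := by
  have hcard : (0 : ℝ) < Fintype.card Z := by
    have : 0 < Fintype.card Z := Fintype.card_pos
    exact_mod_cast this
  have hGc : ((Gᶜ).card : ℝ) * Fintype.card Z ≤ 2 ^ k * ((Fintype.card Z : ℝ) ^ k * S.card) := by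
    refine le_trans (mul_le_mul_of_nonneg_right ?_ hcard.le) (bad_card k S)
    refine Nat.cast_le.2 (card_le_card fun z hz => ?_)
    rw [mem_compl] at hz
    rw [mem_filter]
    exact ⟨mem_univ _, hG z hz⟩
  have h1 : ∀ τ : ps (Fin k) → ZMod 2,
      |∑ z ∈ G, ch (Qf B τ z + F (z i0) (z i1))| * Fintype.card Z ≤
        (Fintype.card Z : ℝ) ^ k *
        ((rad F).card + (rad fun a b => B a b + F a b).card + 2 ^ k * S.card) := by
    intro τ
    have hall : ∑ z ∈ G, ch (Qf B τ z + F (z i0) (z i1)) =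
        ∑ z, ch (Qf B τ z + F (z i0) (z i1)) - ∑ z ∈ Gᶜ, ch (Qf B τ z + F (z i0) (z i1)) := by
      rw [← sum_add_sum_compl G]
      ring
    have hc : |∑ z ∈ Gᶜ, ch (Qf B τ z + F (z i0) (z i1))| ≤ (Gᶜ).card := by
      refine (abs_sum_le_sum_abs _ _).trans ?_
      rw [sum_congr rfl fun z _ => ch_abs _, sum_const, nsmul_eq_mul, mul_one]
    rw [hall]
    have h2 := QF_sum hB hs hF hFs hi τ
    have h3 := mul_le_mul_of_nonneg_right hc hcard.le
    calc |∑ z, ch (Qf B τ z + F (z i0) (z i1)) - ∑ z ∈ Gᶜ, ch (Qf B τ z + F (z i0) (z i1))| *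
        (Fintype.card Z : ℝ) ≤ (|∑ z, ch (Qf B τ z + F (z i0) (z i1))| +
          |∑ z ∈ Gᶜ, ch (Qf B τ z + F (z i0) (z i1))|) * Fintype.card Z :=
          mul_le_mul_of_nonneg_right (abs_sub _ _) hcard.le
      _ ≤ _ := by linarith
  refine (mul_le_mul_of_nonneg_right (abs_sum_le_sum_abs _ _) hcard.le).trans ?_
  rw [sum_mul]
  refine (sum_le_sum fun τ _ => h1 τ).trans ?_
  rw [sum_const, nsmul_eq_mul]
  refine mul_le_mul_of_nonneg_right ?_ (by positivity)
  rw [card_univ, Fintype.card_fun, ZMod.card, Fintype.card_coe]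
  push_cast
  exact pow_le_pow_right₀ (by norm_num) (card_ps_fin k)

end

end Pool.Agent.N809.DP
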