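import Pool.Agent.N809.DP.Gd
import Pool.Agent.N916.PQ.LB2

/-!
# DP, part 4: bordered Laplace systems and the good event
-/

set_option autoImplicit false
set_option linter.all false

open scoped Classical

namespace Pool.Agent.N809.DP

open Finset
open Pool.Agent.N916.GB (ps sx z2 z2_add_self z2_eq_of_add Ev pt Ev_inl Ev_inr)
open Pool.Agent.N916.PQ (ev IsS Gc Hy Kr mem_Kr Lm Lm_Ev)

section
variable {U J : Type} [Fintype U] [Fintype J] [LinearOrder J]

theorem sg_sum {V : Type} [Fintype V] [DecidableEq V] (f : V → ZMod 2) (j : V) :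
    ∑ k, f k * (Pi.single j 1 : V → ZMod 2) k = f j := by
  rw [sum_eq_single j]
  · rw [Pi.single_eq_same, mul_one]
  · intro k _ hk
    rw [Pi.single_eq_of_ne hk, mul_zero]
  · intro h
    exact absurd (mem_univ j) h

/-- the column sums of the matrix with random symbols -/
theorem col_pt (N : U ⊕ J → U ⊕ J → ZMod 2) {δ : J → J → ZMod 2} (hδ : ∀ l m, δ l m = δ m l)
    (x : U ⊕ J → ZMod 2) (j : U ⊕ J) :
    ∑ i, Lm (pt N δ) i j * x i = ∑ i, Lm N i j * x i +
      Sum.elim (fun _ => 0) (fun l => ∑ m, (x (Sum.inr m) + x (Sum.inr l)) * δ l m) j := by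
  have h1 : ∀ (N : U ⊕ J → U ⊕ J → ZMod 2) i, Lm N i j = Ev N (Pi.single j 1) i := by
    intro N i
    rw [← Lm_Ev, sg_sum]
  simp only [h1]
  rw [Fintype.sum_sum_type, Fintype.sum_sum_type]
  simp only [Ev_inl, Ev_inr, add_mul, sum_add_distrib]
  rw [← add_assoc]
  congr 1
  rcases j with v | l
  · rw [Sum.elim_inl]
    have e : ∀ m : J, (Pi.single (Sum.inl v) 1 : U ⊕ J → ZMod 2) (Sum.inr m) = 0 := fun m =>
      Pi.single_eq_of_ne (by simp) _
    simp only [e, zero_mul, sum_const_zero, add_zero]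
  · rw [Sum.elim_inr]
    have e : ∀ m : J, (Pi.single (Sum.inr l) 1 : U ⊕ J → ZMod 2) (Sum.inr m) =
        if m = l then 1 else 0 := by
      intro m
      rw [Pi.single_apply]
      by_cases h : m = l
      · rw [if_pos h, if_pos (by rw [h])]
      · rw [if_neg h, if_neg fun h' => h (Sum.inr_injective h')]
    simp only [e, ite_mul, one_mul, zero_mul]
    have e1 : ∀ k : J, ∑ m, (if m = l then δ k m else 0) = δ k l := fun k => by
      rw [sum_ite_eq' univ l, if_pos (mem_univ _)]
    have e2 : ∀ k : J, ∑ m, (if k = l then δ k m else 0) = if k = l then ∑ m, δ k m else 0 := by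
      intro k
      by_cases h : k = l
      · simp only [if_pos h]
      · simp only [if_neg h, sum_const_zero]
    simp only [e1, e2, ite_mul, zero_mul]
    rw [sum_ite_eq' univ l, if_pos (mem_univ _), sum_mul]
    congr 1
    · exact sum_congr rfl fun k _ => by rw [hδ k l, mul_comm]
    · exact sum_congr rfl fun k _ => mul_comm _ _

/-- the matrix: the unknowns are the vector, the sign and the class at `3` -/
noncomputable def ME (N : U ⊕ J → U ⊕ J → ZMod 2) (ua vq : U ⊕ J → ZMod 2) (j : U ⊕ J) :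
    Option (Option U) ⊕ J → ZMod 2
  | Sum.inl none => ua j
  | Sum.inl (some none) => vq j
  | Sum.inl (some (some v)) => Lm N (Sum.inl v) j
  | Sum.inr l => Lm N (Sum.inr l) j

/-- the components of an unknown -/
def dx (X : Option (Option U) ⊕ J → ZMod 2) (i : U ⊕ J) : ZMod 2 :=
  Sum.elim (fun v => X (Sum.inl (some (some v)))) (fun l => X (Sum.inr l)) i
def ds (X : Option (Option U) ⊕ J → ZMod 2) : ZMod 2 := X (Sum.inl none)
def da (X : Option (Option U) ⊕ J → ZMod 2) : ZMod 2 := X (Sum.inl (some none))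

/-- the unknown with given components -/
def vE (x : U ⊕ J → ZMod 2) (s a : ZMod 2) : Option (Option U) ⊕ J → ZMod 2
  | Sum.inl none => s
  | Sum.inl (some none) => a
  | Sum.inl (some (some v)) => x (Sum.inl v)
  | Sum.inr l => x (Sum.inr l)

theorem dx_vE (x : U ⊕ J → ZMod 2) (s a : ZMod 2) : dx (vE x s a) = x := by
  funext i
  rcases i with v | l <;> rfl

theorem vE_d (X : Option (Option U) ⊕ J → ZMod 2) : vE (dx X) (ds X) (da X) = X := by
  funext i
  rcases i with (_ | _ | v) | l <;> rfl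

theorem sum_E (f : Option (Option U) ⊕ J → ZMod 2) :
    ∑ c, f c = ∑ i : U ⊕ J, dx f i + ds f + da f := by
  rw [Fintype.sum_sum_type, Fintype.sum_option, Fintype.sum_option, Fintype.sum_sum_type]
  unfold dx ds da
  simp only [Sum.elim_inl, Sum.elim_inr]
  ring

theorem ev_E (N : U ⊕ J → U ⊕ J → ZMod 2) (ua vq : U ⊕ J → ZMod 2)
    (X : Option (Option U) ⊕ J → ZMod 2) (j : U ⊕ J) :
    ev (ME N ua vq) X j = ∑ i, Lm N i j * dx X i + ds X * ua j + da X * vq j := by
  unfold ev
  rw [sum_E]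
  unfold ds da
  have h : ∑ i, dx (fun c => ME N ua vq j c * X c) i = ∑ i, Lm N i j * dx X i := by
    refine sum_congr rfl fun i _ => ?_
    rcases i with v | l <;> rfl
  rw [h]
  show _ + ua j * X (Sum.inl none) + vq j * X (Sum.inl (some none)) = _
  ring

theorem isS_E (N : U ⊕ J → U ⊕ J → ZMod 2) (ua vq : U ⊕ J → ZMod 2) {δ : J → J → ZMod 2}
    (hδ : ∀ l m, δ l m = δ m l) (X : Option (Option U) ⊕ J → ZMod 2) :
    IsS (ME N ua vq) δ X ↔
      ∀ j, ∑ i, Lm (pt N δ) i j * dx X i + ds X * ua j + da X * vq j = 0 := by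
  unfold IsS
  constructor
  · rintro ⟨h1, h2⟩ (v | l)
    · rw [col_pt N hδ, Sum.elim_inl, add_zero, ← ev_E]
      exact h1 v
    · have := h2 l
      rw [ev_E] at this
      rw [col_pt N hδ, Sum.elim_inr, ← this]
      unfold Pool.Agent.N916.PQ.lp
      show _ + ∑ m, (X (Sum.inr m) + X (Sum.inr l)) * δ l m + _ + _ = _
      ring
  · intro h
    refine ⟨fun v => ?_, fun l => ?_⟩
    · rw [ev_E]
      have := h (Sum.inl v)
      rw [col_pt N hδ, Sum.elim_inl, add_zero] at this
      exact this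
    · rw [ev_E]
      have := h (Sum.inr l)
      rw [col_pt N hδ, Sum.elim_inr] at this
      rw [← this]
      unfold Pool.Agent.N916.PQ.lp
      show _ = _ + ∑ m, (X (Sum.inr m) + X (Sum.inr l)) * δ l m + _ + _
      ring

theorem isS_tE (N : U ⊕ J → U ⊕ J → ZMod 2) (ua vq : U ⊕ J → ZMod 2) (δ : J → J → ZMod 2)
    (y : U ⊕ J → ZMod 2) :
    IsS (tM (ME N ua vq)) δ y ↔
      (∀ i, Ev (pt N δ) y i = 0) ∧ ∑ j, ua j * y j = 0 ∧ ∑ j, vq j * y j = 0 := by
  unfold IsS
  have h1 : ev (tM (ME N ua vq)) y (Sum.inl none) = ∑ j, ua j * y j := rfl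
  have h2 : ev (tM (ME N ua vq)) y (Sum.inl (some none)) = ∑ j, vq j * y j := rfl
  have h3 : ∀ v, ev (tM (ME N ua vq)) y (Sum.inl (some (some v))) = Ev (pt N δ) y (Sum.inl v) := by
    intro v
    rw [Ev_inl, ← Lm_Ev]
    rfl
  have h4 : ∀ l, ev (tM (ME N ua vq)) y (Sum.inr l) + Pool.Agent.N916.PQ.lp δ y l =
      Ev (pt N δ) y (Sum.inr l) := by
    intro l
    rw [Ev_inr, ← Lm_Ev]
    rfl
  constructor
  · rintro ⟨h5, h6⟩
    refine ⟨?_, ?_, ?_⟩
    · rintro (v | l)
      · rw [← h3]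
        exact h5 _
      · rw [← h4]
        exact h6 _
    · rw [← h1]
      exact h5 _
    · rw [← h2]
      exact h5 _
  · rintro ⟨h5, h6, h7⟩
    refine ⟨?_, fun l => ?_⟩
    · rintro (_ | _ | v)
      · rw [h1]
        exact h6
      · rw [h2]
        exact h7
      · rw [h3]
        exact h5 _
    · rw [h4]
      exact h5 _

/-- the form -/
def SE {V : Type} [Fintype V] (kv uc : V → ZMod 2) (x : V → ZMod 2) (s a : ZMod 2)
    (x' : V → ZMod 2) (s' a' : ZMod 2) : ZMod 2 :=
  ∑ i, kv i * (x i * x' i) + a * ∑ i, uc i * x' i + a' * ∑ i, uc i * x i +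
    (∑ i, kv i * x i + s + a) * (∑ i, kv i * x' i + s' + a') + (s + a) * (s' + a')

/-- the form on the unknowns -/
def FE (kv uc : U ⊕ J → ZMod 2) (X X' : Option (Option U) ⊕ J → ZMod 2) : ZMod 2 :=
  SE kv uc (dx X) (ds X) (da X) (dx X') (ds X') (da X')

theorem dx_add (X X' : Option (Option U) ⊕ J → ZMod 2) (i : U ⊕ J) :
    dx (X + X') i = dx X i + dx X' i := by
  rcases i with v | l <;> rfl

theorem FE_add (kv uc : U ⊕ J → ZMod 2) (a b c : Option (Option U) ⊕ J → ZMod 2) :
    FE kv uc a (b + c) = FE kv uc a b + FE kv uc a c := by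
  unfold FE SE
  have h1 : ds (b + c) = ds b + ds c := rfl
  have h2 : da (b + c) = da b + da c := rfl
  simp only [h1, h2, dx_add, mul_add, sum_add_distrib]
  ring

theorem FE_symm (kv uc : U ⊕ J → ZMod 2) (a b : Option (Option U) ⊕ J → ZMod 2) :
    FE kv uc a b = FE kv uc b a := by
  unfold FE SE
  have e : ∑ i, kv i * (dx a i * dx b i) = ∑ i, kv i * (dx b i * dx a i) :=
    sum_congr rfl fun i _ => by rw [mul_comm (dx a i)]
  rw [e]
  ring

theorem FE_self (kv uc : U ⊕ J → ZMod 2) (a : Option (Option U) ⊕ J → ZMod 2) :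
    FE kv uc a a = 0 := by
  unfold FE SE
  have e : ∑ i, kv i * (dx a i * dx a i) = ∑ i, kv i * dx a i := by
    refine sum_congr rfl fun i _ => ?_
    have key : ∀ t : ZMod 2, t * t = t := by decide
    rw [key]
  rw [e]
  generalize ∑ i, kv i * dx a i = A
  generalize ∑ i, uc i * dx a i = B
  generalize ds a = s
  generalize da a = t
  have key : ∀ A B s a : ZMod 2, A + a * B + a * B + (A + s + a) * (A + s + a) +
      (s + a) * (s + a) = 0 := by decide
  exact key _ _ _ _

/-- **the system in matrix form** -/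
theorem sysE {N : U ⊕ J → U ⊕ J → ZMod 2} {ua vq kv uc wx : U ⊕ J → ZMod 2} {u : J → ZMod 2}
    (H : Hy (ME N ua vq) (fun _ => 1) (vE wx 1 0) u) (k0 : J) {δ : J → J → ZMod 2}
    (hδ : ∀ l m, δ l m = δ m l)
    (hY : ∀ (x : U ⊕ J → ZMod 2) (s a : ZMod 2),
      (∀ j, ∑ i, Lm (pt N δ) i j * x i + s * ua j + a * vq j = 0) → SE kv uc wx 1 0 x s a = 0) :
    ((∀ y : U ⊕ J → ZMod 2, (∀ i, Ev (pt N δ) y i = 0) → ∑ j, ua j * y j = 0 →
        ∑ j, vq j * y j = 0 → ∃ β : ZMod 2, ∀ j, y j = β) ∧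
      (∀ (x : U ⊕ J → ZMod 2) (s a : ZMod 2),
        (∀ j, ∑ i, Lm (pt N δ) i j * x i + s * ua j + a * vq j = 0) →
        (∀ (x' : U ⊕ J → ZMod 2) (s' a' : ZMod 2),
          (∀ j, ∑ i, Lm (pt N δ) i j * x' i + s' * ua j + a' * vq j = 0) →
            SE kv uc x s a x' s' a' = 0) → a = 0 ∧ ∀ i, x i = s * wx i)) ↔
      Good fun a b : Kr (ME N ua vq) k0 δ =>
        FE kv uc (a : Option (Option U) ⊕ J → ZMod 2) b := by
  rw [← good_iff H k0 (by rw [Fintype.card_option, Fintype.card_option]) hδ (FE_add kv uc)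
    (FE_symm kv uc) (FE_self kv uc) (fun b hb => by
      rw [isS_E N ua vq hδ] at hb
      have h1 := hY _ _ _ hb
      unfold FE
      rw [dx_vE]
      exact h1)]
  refine and_congr ?_ ?_
  · unfold Gc
    refine forall_congr' fun y => ?_
    rw [isS_tE]
    simp only [mul_one]
    tauto
  · constructor
    · intro h X hX hr
      rw [isS_E N ua vq hδ] at hX
      obtain ⟨h1, h2⟩ := h _ _ _ hX fun x' s' a' h' => by
        have h3 := hr (vE x' s' a') (by
          rw [isS_E N ua vq hδ, dx_vE]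
          exact h')
        unfold FE at h3
        rw [dx_vE] at h3
        exact h3
      refine ⟨ds X, fun c => ?_⟩
      rcases c with (_ | _ | v) | l
      · show ds X = ds X * 1
        rw [mul_one]
      · show da X = ds X * 0
        rw [mul_zero]
        exact h1
      · exact h2 (Sum.inl v)
      · exact h2 (Sum.inr l)
    · intro h x s a hx hr
      obtain ⟨β, hβ⟩ := h (vE x s a) (by
        rw [isS_E N ua vq hδ, dx_vE]
        exact hx) fun X' hX' => by
        rw [isS_E N ua vq hδ] at hX'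
        unfold FE
        rw [dx_vE]
        exact hr _ _ _ hX'
      have h1 : s = β * 1 := hβ (Sum.inl none)
      have h2 : a = β * 0 := hβ (Sum.inl (some none))
      rw [mul_one] at h1
      rw [mul_zero] at h2
      refine ⟨h2, fun i => ?_⟩
      rw [h1]
      rcases i with v | l
      · exact hβ (Sum.inl (some (some v)))
      · exact hβ (Sum.inr l)

end

end Pool.Agent.N809.DP
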